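import Mathlib

set_option autoImplicit false

namespace Pool.Agent.H.MP_311ff9_lc

open Finset

abbrev V (τ : Type) := τ × Fin 3 × Fin 6

variable {τ : Type} [Fintype τ] [DecidableEq τ] (fs : τ → Fin 3 → τ)

def n1 (u : V τ) : V τ := (u.1, u.2.1, ⟨(u.2.2 + 1) % 3, by omega⟩)
def n2 (u : V τ) : V τ := (u.1, u.2.1 + 1, 2)
def n3 (u : V τ) : V τ := (fs u.1 u.2.1, u.2.1, 3)

def om (r q : ℝ) (u v : V τ) : ℝ := (if u.2.2 < 3 ∧ v = n1 u then r else 0) + (if u.2.2 = 2 ∧ v = n2 u then r else 0) +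
  if u.2.2 < 2 ∧ v = n3 fs u then q else 0

def G (r q : ℝ) (l : V τ → ℕ) (t : τ) : ℝ := ∑ i, ((if l (t, i, 0) = l (t, i, 1) then r else 0) +
  (if l (t, i, 1) = l (t, i, 2) then r else 0) + (if l (t, i, 2) = l (t, i, 0) then r else 0) +
  (if l (t, i, 2) = l (t, i + 1, 2) then r else 0) + (if l (t, i, 0) = l (fs t i, i, 3) then q else 0) +
  if l (t, i, 1) = l (fs t i, i, 3) then q else 0)

def Tri (l : V τ → ℕ) : Prop := ∀ u, (univ.filter fun v => l v = l u).card = 3

def In (l : V τ → ℕ) (t : τ) : Prop := ∀ i, l (t, i, 0) = l (fs t i, i, 3) ∧ l (t, i, 1) = l (fs t i, i, 3)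

theorem core_eq {a r q : ℝ} {d : V τ → V τ → ℝ} (hd : ∀ u v, d u v = if u = v then 0 else a + (om fs r q u v + om fs r q v u))
    {l : V τ → ℕ} (hl : Tri l) :
    ∑ u, ∑ v, (if l u = l v then d u v else 0) = 36 * a * Fintype.card τ + 2 * ∑ t, G fs r q l t := by
  have z : ∀ u : V τ, om fs r q u u = 0 := fun ⟨t, i, j⟩ => by
    simp only [om, n1, n2, n3, Prod.mk.injEq, Fin.ext_iff, Fin.lt_def, Fin.val_add]
    rw [if_neg (by omega), if_neg (by omega), if_neg (by omega)]; simp
  have e : ∀ u v, (if l u = l v then d u v else 0) = (if l v = l u then a else 0) - (if u = v then a else 0) +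
      ((if l u = l v then om fs r q u v else 0) + if l v = l u then om fs r q v u else 0) := fun u v => by
    by_cases c : u = v
    · simp [c, hd, z]
    · by_cases c2 : l u = l v <;> simp [c, hd, c2, eq_comm (a := l v)]
  have e2 : ∀ u, ∑ v, (if l v = l u then a else 0) = 3 * a := fun u => by
    rw [← sum_filter, sum_const, hl u]; simp
  simp only [e, sum_add_distrib, sum_sub_distrib, e2]
  rw [sum_comm (f := fun u v => if l v = l u then om fs r q v u else 0), ← two_mul]
  congr 1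
  · simp; ring
  have e3 : ∀ (u : V τ) (c : Prop) [Decidable c] (w : V τ) (x : ℝ),
      ∑ v, (if l u = l v then (if c ∧ v = w then x else 0) else 0) = if c then (if l u = l w then x else 0) else 0 :=
    fun u c _ w x => by
      rw [sum_eq_single w (by simp +contextual) (by simp)]; split_ifs <;> simp_all
  simp only [om, ite_add_zero, sum_add_distrib, e3]
  simp only [← sum_add_distrib, Fintype.sum_prod_type, G]
  refine congrArg _ (sum_congr rfl fun t _ => sum_congr rfl fun i _ => ?_)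
  simp [Fin.sum_univ_six, n1, n2, n3]
  ring

theorem no4 {l : V τ → ℕ} (hl : Tri l) {u v w x : V τ} (h : [u, v, w, x].Nodup) : ¬(l v = l u ∧ l w = l u ∧ l x = l u) :=
  fun ⟨a, b, c⟩ => by
    have := card_le_card (s := [u, v, w, x].toFinset) (t := univ.filter fun v => l v = l u) (by simp [subset_iff, *])
    rw [hl, List.toFinset_card_of_nodup h] at this
    simp at this

theorem arm {r q : ℝ} (h1 : 0 ≤ q) (h2 : 4 * q ≤ 3 * r) {a b c k y z : ℕ} (f1 : ¬(b = a ∧ c = a ∧ k = a))
    (f2 : ¬(b = a ∧ c = a ∧ y = a)) (f3 : ¬(b = a ∧ c = a ∧ z = a)) (f4 : ¬(c = a ∧ y = a ∧ z = a))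
    (f5 : ¬(c = b ∧ y = b ∧ z = b)) :
    (if a = b then r else 0) + (if b = c then r else 0) + (if c = a then r else 0) + (if c = y then r else 0) / 2 +
      (if z = c then r else 0) / 2 + (if a = k then q else 0) + (if b = k then q else 0) ≤
      if c = y ∧ z = c then (if a = k ∧ b = k then 2 * r + 2 * q else 2 * r) else 3 * r := by
  split_ifs <;> first | linarith | omega

open Classical in
theorem core_le {r q : ℝ} (h1 : r ≤ 2 * q) (h2 : 4 * q ≤ 3 * r) {l : V τ → ℕ} (hl : Tri l) (t : τ) :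
    G fs r q l t ≤ 9 * r + if In fs l t then 3 * (2 * q - r) else 0 := by
  have k : ∀ i : Fin 3, _ := fun i => arm (r := r) (q := q) (by linarith) h2 (a := l (t, i, 0)) (b := l (t, i, 1))
    (c := l (t, i, 2)) (k := l (fs t i, i, 3)) (y := l (t, i + 1, 2)) (z := l (t, i + 2, 2)) (no4 hl (by simp))
    (no4 hl (by simp)) (no4 hl (by simp)) (no4 hl (by fin_cases i <;> simp)) (no4 hl (by fin_cases i <;> simp))
  have := add_le_add (add_le_add (k 0) (k 1)) (k 2)
  simp only [G, In, Fin.sum_univ_three, Fin.forall_fin_succ, Fin.reduceAdd, IsEmpty.forall_iff, and_true, Fin.succ_zero_eq_one,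
    Fin.succ_one_eq_two] at this ⊢
  refine le_trans (le_of_eq (by ring)) (this.trans ?_)
  split_ifs <;> first | linarith | omega | tauto

theorem core_match {l : V τ → ℕ} (hl : Tri l) {t t' : τ} (h : In fs l t) (h' : In fs l t') {i} (e : fs t i = fs t' i) :
    t = t' := by
  by_contra n
  exact no4 hl (u := (fs t i, i, 3)) (v := (t, i, 0)) (w := (t, i, 1)) (x := (t', i, 0)) (by simp [n])
    ⟨(h i).1, (h i).2, e ▸ (h' i).1⟩

def loc (b : Bool) (x : Fin 3 × Fin 6) : Fin 3 × Fin 6 :=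
  if b then (if x.2 = 0 ∨ x.2 = 1 ∨ x.2 = 3 then (x.1, 0) else (0, x.2)) else (x.1, if x.2 < 3 then 0 else 3)

theorem loc3 : ∀ b x, (univ.filter fun y => loc b y = loc b x).card = 3 := by decide

theorem core_ex {r q : ℝ} (h1 : 0 ≤ q) (h2 : 0 ≤ r) (S : Finset τ) (hS : ∀ t ∈ S, ∀ t' ∈ S, ∀ i, fs t i = fs t' i → t = t') :
    ∃ l, Tri l ∧ ∀ t, 9 * r + (if t ∈ S then 3 * (2 * q - r) else 0) ≤ G fs r q l t := by
  choose σ hσ using fun i => Equiv.Perm.exists_extending_pair (f := fun t : S => fs t i) (g := Subtype.val)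
    (fun a b e => Subtype.ext (hS _ a.2 _ b.2 i e)) Subtype.val_injective
  let ρ : V τ ≃ V τ := (Equiv.prodComm _ _).trans ((Equiv.prodCongrRight fun x : Fin 3 × Fin 6 =>
    if x.2 = 3 then σ x.1 else Equiv.refl τ).trans (Equiv.prodComm _ _))
  let c := Fintype.equivFin (V τ)
  let l : V τ → ℕ := fun u => c (u.1, loc (u.1 ∈ S) u.2)
  refine ⟨fun u => l (ρ u), fun u => ?_, fun t => ?_⟩
  · rw [card_equiv ρ (t := univ.filter fun v => l v = l (ρ u)) (by simp)]
    refine (card_bij (fun y _ => ((ρ u).1, y)) (by simp +contextual [l]) (by simp) fun v hv => ?_).symm.trans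
      (loc3 (decide ((ρ u).1 ∈ S)) (ρ u).2)
    simp only [l, mem_filter, mem_univ, true_and, Fin.val_inj, EmbeddingLike.apply_eq_iff_eq, Prod.mk.injEq] at hv
    exact ⟨v.2, by simp [← hv.1, hv.2, hv.1 ▸ hv.2], by simp [← hv.1]⟩
  · rw [show (9 * r + if t ∈ S then 3 * (2 * q - r) else 0) = ∑ i : Fin 3, (3 * r + if t ∈ S then 2 * q - r else 0) by
      split_ifs <;> simp <;> ring]
    refine sum_le_sum fun i _ => ?_
    by_cases e : t ∈ S
    · have := hσ i ⟨t, e⟩
      simp [l, ρ, Fin.val_inj, e, loc, this] at this ⊢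
      linarith
    · simp [l, ρ, Fin.val_inj, e, loc]
      split_ifs <;> linarith

theorem had (k a b : ℕ) : ∑ r ∈ range (2 ^ k), ∏ i ∈ range k, ((if a.testBit i && r.testBit i then -1 else 1 : ℝ) *
    if b.testBit i && r.testBit i then -1 else 1) = ∏ i ∈ range k, if a.testBit i = b.testBit i then 2 else 0 := by
  induction k with
  | zero => simp
  | succ k ih =>
    rw [pow_succ, mul_two, sum_range_add, prod_range_succ, ← ih, sum_mul, ← sum_add_distrib]
    refine sum_congr rfl fun r hr => ?_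
    have := Nat.testBit_lt_two_pow (mem_range.1 hr)
    rw [prod_range_succ, prod_range_succ, this, Nat.testBit_two_pow_add_eq, this,
      prod_congr (f := fun i => _ * if b.testBit i && (2 ^ k + r).testBit i then -1 else 1) rfl fun i hi => by
        rw [Nat.testBit_two_pow_add_gt (mem_range.1 hi)]]
    cases a.testBit k <;> cases b.testBit k <;> simp [mul_two]

theorem pw {θ : ℝ} (h0 : 0 < θ) (h1 : θ ≤ 1) : (33 : ℝ) ^ θ - 30 ^ θ < 2 * (32 ^ θ - 30 ^ θ) ∧
    4 * ((32 : ℝ) ^ θ - 30 ^ θ) ≤ 3 * (33 ^ θ - 30 ^ θ) := by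
  have u : ∀ x : ℝ, 0 ≤ x → (30 * (1 + x)) ^ θ ≤ 30 ^ θ * (1 + θ * x) ∧ 30 ^ θ * (1 + θ * (x / (1 + x))) ≤ (30 * (1 + x)) ^ θ :=
    fun x hx => by
      rw [Real.mul_rpow (by norm_num) (by linarith)]
      refine ⟨by gcongr; exact rpow_one_add_le_one_add_mul_self (by linarith) h0.le h1, ?_⟩
      gcongr
      rw [Real.rpow_def_of_pos (by linarith), add_comm]
      refine le_trans ?_ (Real.add_one_le_exp _)
      have := Real.one_sub_inv_le_log_of_pos (show 0 < 1 + x by linarith)
      rw [show 1 - (1 + x)⁻¹ = x / (1 + x) by field_simp; ring] at this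
      nlinarith
  have a := u (1 / 10) (by norm_num)
  have b := u (1 / 15) (by norm_num)
  have p : (0 : ℝ) < 30 ^ θ * θ := by positivity
  norm_num at a b
  constructor <;> nlinarith

end Pool.Agent.H.MP_311ff9_lc
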