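import Pool.Agent.Lib.lead.CXRat

set_option autoImplicit false

namespace Pool.Agent.H.MP_311ff9_lc

open Pool.Agent.Lib.CX Finset

/-- an optimisation problem: goal (`true` = maximise), instances, feasible solutions, objective -/
structure Prob (I S : Type) where
  mx : Bool
  inst : I → Prop
  sol : I → S → Prop
  val : I → S → ℝ

/-- the performance ratio of `y` on `x` is at most `r` -/
def Prob.Within {I S : Type} (A : Prob I S) (x : I) (y : S) (r : ℝ) : Prop :=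
  ∀ z, A.sol x z → if A.mx then A.val x z ≤ r * A.val x y else A.val x y ≤ r * A.val x z

/-- one program computes `F`, in polynomial time for each fixed rational `r` -/
def XP {α β : Type} [Enc α] [Enc β] (F : ℚ × α → β) : Prop :=
  ∃ p : Prog, ∀ r, ∃ q : Polynomial ℕ, ∀ a, ∃ n m, n ≤ q.eval (size a) ∧
    Exec p (io (enc (r, a))) (io (enc (F (r, a)))) n m

/-- AP-reducibility -/
def AP {I S J T : Type} [Enc I] [Enc S] [Enc J] [Enc T] (A : Prob I S) (B : Prob J T) : Prop :=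
  ∃ (c : ℝ) (f : ℚ × I → J) (g : ℚ × I × T → S), 1 ≤ c ∧ XP f ∧ XP g ∧ ∀ r : ℚ, 1 < r → ∀ x, A.inst x →
    B.inst (f (r, x)) ∧ ((∃ y, A.sol x y) → ∃ y, B.sol (f (r, x)) y) ∧ ∀ y, B.sol (f (r, x)) y →
      A.sol x (g (r, x, y)) ∧ (B.Within (f (r, x)) y r → A.Within x (g (r, x, y)) (1 + c * (r - 1)))

/-- the class APX -/
def APX (A : Prob (List Bool) (List Bool)) : Prop :=
  InP A.inst ∧ InP (fun z : List Bool × List Bool => A.sol z.1 z.2) ∧
  (∃ q : Polynomial ℕ, ∀ x y, A.sol x y → y.length ≤ q.eval x.length) ∧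
  (∃ m : List Bool × List Bool → ℕ, PT m ∧ ∀ x y, A.sol x y → 0 < m (x, y) ∧ A.val x y = m (x, y)) ∧
  ∃ (r : ℝ) (a : List Bool → List Bool), PT a ∧ ∀ x, A.inst x → (∃ y, A.sol x y) → A.sol x (a x) ∧ A.Within x (a x) r

def APXHard {J T : Type} [Enc J] [Enc T] (B : Prob J T) : Prop := ∀ A, APX A → AP A B

/-- maximum 3-dimensional matching, every element in at most three triples -/
def DM3 : Prob (List (ℕ × ℕ × ℕ)) (List (ℕ × ℕ × ℕ)) where
  mx := true
  inst T := T ≠ [] ∧ T.Nodup ∧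
    ∀ a, (T.map (·.1)).count a ≤ 3 ∧ (T.map (·.2.1)).count a ≤ 3 ∧ (T.map (·.2.2)).count a ≤ 3
  sol T M := M ⊆ T ∧ M.Pairwise fun x y => x.1 ≠ y.1 ∧ x.2.1 ≠ y.2.1 ∧ x.2.2 ≠ y.2.2
  val _ M := M.length

/-- the `L_p` distance of two points of `ℚ^s` -/
noncomputable def dp (p : ENNReal) (s : ℕ) (x y : List ℚ) : ℝ :=
  ‖(WithLp.toLp p fun i : Fin s => ((x.getD i 0 - y.getD i 0 : ℚ) : ℝ) : PiLp p fun _ : Fin s => ℝ)‖

/-- maximum-perimeter triangle partition under `L_p`; a partition is a list of block labels -/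
noncomputable def MaxTri (p : ENNReal) : Prob (ℕ × List (List ℚ)) (List ℕ) where
  mx := true
  inst x := 0 < x.1 ∧ x.2 ≠ [] ∧ 3 ∣ x.2.length ∧ x.2.Nodup ∧ ∀ v ∈ x.2, v.length = x.1
  sol x l := l.length = x.2.length ∧ ∀ a ∈ l, l.count a = 3
  val x l := ∑ j ∈ range x.2.length, ∑ i ∈ range j,
    if l.getD i 0 = l.getD j 0 then dp p x.1 (x.2.getD i []) (x.2.getD j []) else 0

end Pool.Agent.H.MP_311ff9_lc
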