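import Pool.Agent.H.MP_311ff9_lc.A
import Pool.Agent.H.MP_311ff9_lc.Defs
import Pool.Agent.Lib.helper29.CXQ

set_option autoImplicit false

namespace Pool.Agent.H.MP_311ff9_lc

open Pool.Agent.Lib.CX Finset Pool.Agent.Lib.helper29.CXQ

abbrev T3 := ℕ × ℕ × ℕ

def el (x : T3) (i : ℕ) : ℕ := if i = 0 then x.1 else if i = 1 then x.2.1 else x.2.2
def col (T : List T3) (i : ℕ) : List ℕ := T.map fun x => el x i
def fst (T : List T3) (t i : ℕ) : ℕ := (col T i).idxOf ((col T i).getD t 0)
def occ (T : List T3) (t i : ℕ) : ℕ := ((col T i).take t).count ((col T i).getD t 0)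
def src (o i j x : ℕ) : Bool :=
  decide (if x < 9 then j = x % 3 else if x < 18 then j = 2 ∧ i = x % 3 else j = x % 2 ∧ o = x % 3)
def S (T : List T3) (x u : ℕ) : Bool := src (occ T (u / 18) (u % 18 / 6)) (u % 18 / 6) (u % 6) x
def N (T : List T3) (x u : ℕ) : ℕ := if x < 9 then 18 * (u / 18) + 6 * (u % 18 / 6) + (u % 6 + 1) % 3 else
  if x < 18 then 18 * (u / 18) + 6 * ((u % 18 / 6 + 1) % 3) + 2 else 18 * fst T (u / 18) (u % 18 / 6) + 6 * (u % 18 / 6) + 3
def cls (T : List T3) (x u : ℕ) : ℕ := if S T x u then N T x u else u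
def D (T : List T3) (u v : ℕ) : ℕ := if u = v then 0 else 30 + (List.range 30).countP fun x => cls T x u = cls T x v
def bit (T : List T3) (u x r : ℕ) : ℚ := if ((List.range (18 * T.length).size).countP
  (fun i => (cls T x u).testBit i && r.testBit i) + (S T x u).toNat) % 2 = 0 then 0 else 1
def L (T : List T3) : ℕ := 2 ^ (18 * T.length).size
def pt (b : Bool) (T : List T3) (u : ℕ) : List ℚ := if b then (List.range (18 * T.length)).map fun z => (D T u z : ℚ) else
  (List.range (30 * L T)).map fun c => bit T u (c / L T) (c % L T)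
def red (b : Bool) (T : List T3) : ℕ × List (List ℚ) :=
  (if b then 18 * T.length else 30 * L T, (List.range (18 * T.length)).map (pt b T))
def dec (T : List T3) (l : List ℕ) : List ℕ := (List.range T.length).filter fun t => ∀ i ∈ List.range 3,
  l.getD (18 * t + 6 * i) 0 = l.getD (18 * fst T t i + 6 * i + 3) 0 ∧
    l.getD (18 * t + 6 * i + 1) 0 = l.getD (18 * fst T t i + 6 * i + 3) 0
def cand (T : List T3) (c : ℕ) : List ℕ :=
  (List.range T.length).filter fun t => occ T t 0 + 3 * occ T t 1 + 9 * occ T t 2 = c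
def big (T : List T3) : List ℕ :=
  cand T (((List.range 27).find? fun c => T.length ≤ 27 * (cand T c).length).getD 0)
def back (T : List T3) (l : List ℕ) : List T3 :=
  (if (big T).length ≤ (dec T l).length then dec T l else big T).map fun t => T.getD t (0, 0, 0)

section
attribute [local irreducible] el col fst occ src S N cls D bit L pt red dec cand big back
variable {α : Type} [Enc α] {T : α → List T3} {a b c d : α → ℕ}
@[fun_prop] theorem pt_el {x : α → T3} (h : PT x) (h1 : PT a) : PT fun z => el (x z) (a z) := by unfold el; fun_prop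
@[fun_prop] theorem pt_col (h : PT T) (h1 : PT a) : PT fun z => col (T z) (a z) := by unfold col; fun_prop
@[fun_prop] theorem pt_fst (h : PT T) (h1 : PT a) (h2 : PT b) : PT fun z => fst (T z) (a z) (b z) := by
  unfold fst; fun_prop
@[fun_prop] theorem pt_occ (h : PT T) (h1 : PT a) (h2 : PT b) : PT fun z => occ (T z) (a z) (b z) := by
  unfold occ; fun_prop
@[fun_prop] theorem pt_src (h1 : PT a) (h2 : PT b) (h3 : PT c) (h4 : PT d) : PT fun z => src (a z) (b z) (c z) (d z) :=
  PT.congr (g := fun z => if d z < 9 then decide (c z = d z % 3) else if d z < 18 then decide (c z = 2 ∧ b z = d z % 3) else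
    decide (c z = d z % 2 ∧ a z = d z % 3)) (by fun_prop) fun z => by unfold src; split_ifs <;> simp [*]
@[fun_prop] theorem pt_S (h : PT T) (h1 : PT a) (h2 : PT b) : PT fun z => S (T z) (a z) (b z) := by unfold S; fun_prop
@[fun_prop] theorem pt_N (h : PT T) (h1 : PT a) (h2 : PT b) : PT fun z => N (T z) (a z) (b z) := by unfold N; fun_prop
@[fun_prop] theorem pt_cls (h : PT T) (h1 : PT a) (h2 : PT b) : PT fun z => cls (T z) (a z) (b z) := by
  unfold cls; fun_prop
@[fun_prop] theorem pt_D (h : PT T) (h1 : PT a) (h2 : PT b) : PT fun z => D (T z) (a z) (b z) := by unfold D; fun_prop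
@[fun_prop] theorem pt_bit (h : PT T) (h1 : PT a) (h2 : PT b) (h3 : PT c) : PT fun z => bit (T z) (a z) (b z) (c z) := by
  unfold bit; fun_prop
@[fun_prop] theorem pt_L (h : PT T) : PT fun z => L (T z) := by unfold L; fun_prop
@[fun_prop] theorem pb_L (h : PT T) : PB fun z => L (T z) :=
  PB.mono (g := fun z => 36 * (T z).length + 1) (by fun_prop) fun z => by
    unfold L
    rcases Nat.eq_zero_or_pos (18 * (T z).length).size with e | e
    · simp [e]
    · have := Nat.lt_size.1 (show (18 * (T z).length).size - 1 < _ from Nat.sub_lt e one_pos)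
      rw [← Nat.sub_add_cancel (show 1 ≤ _ from e), pow_succ]; omega
@[fun_prop] theorem pt_pt (e : Bool) (h : PT T) (h1 : PT a) : PT fun z => pt e (T z) (a z) := by
  unfold pt; cases e <;> simp only [Bool.false_eq_true, if_true, if_false] <;> fun_prop
theorem pt_red (e : Bool) : PT (red e) := by unfold red; fun_prop
@[fun_prop] theorem pt_dec {l : α → List ℕ} (h : PT T) (h1 : PT l) : PT fun z => dec (T z) (l z) := by unfold dec; fun_prop
@[fun_prop] theorem pt_cand (h : PT T) (h1 : PT a) : PT fun z => cand (T z) (a z) := by unfold cand; fun_prop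
@[fun_prop] theorem pt_big (h : PT T) : PT fun z => big (T z) := by unfold big; fun_prop
theorem pt_back : PT fun z : List T3 × List ℕ => back z.1 z.2 := by unfold back; fun_prop
end

section
variable {α β γ : Type} [Enc α] [Enc β] [Enc γ]

theorem XP_iff {F : ℚ × α → β} : XP F ↔ ∃ (p : Prog) (N : ℚ × α → ℕ), (∀ r, PB fun a => N (r, a)) ∧ ∀ z, R p (enc z) (enc (F z)) (N z) := by
  constructor
  · rintro ⟨p, h⟩
    choose q h using h
    refine ⟨p, fun z => (q z.1).eval (size z.2), fun r => ⟨q r, fun _ => le_rfl⟩, fun z => ?_⟩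
    obtain ⟨n, m, hn, h⟩ := h z.1 z.2
    exact ⟨n, hn, m, by simpa [io_eq] using h⟩
  · rintro ⟨p, N, hN, h⟩
    refine ⟨p, fun r => (hN r).imp fun q hq a => ?_⟩
    obtain ⟨n, hn, m, h⟩ := h (r, a)
    exact ⟨n, m, hn.trans (hq a), by simpa [io_eq] using h⟩

theorem XP.of {F : ℚ × α → β} (h : PT F) : XP F :=
  let ⟨p, N, a, b⟩ := PT_iff.1 h; XP_iff.2 ⟨p, N, fun r => a.comp (g := fun a => (r, a)) (by fun_prop), b⟩

theorem XP.pt {F : ℚ × α → β} (h : XP F) (r : ℚ) : PT fun a => F (r, a) := by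
  obtain ⟨p, N, a, b⟩ := XP_iff.1 h
  obtain ⟨q, K, c, d⟩ := PT_iff.1 (show PT fun a : α => (r, a) by fun_prop)
  exact PT_iff.2 ⟨_, _, (c.add (a r)).add (PB.const 1), fun a => (d a).seq (b _)⟩

theorem XP.post {F : β → γ} {G : ℚ × α → β} (h : PT F) (h' : XP G) : XP fun z => F (G z) := by
  obtain ⟨p, N, a, b⟩ := PT_iff.1 h
  obtain ⟨q, K, c, d⟩ := XP_iff.1 h'
  exact XP_iff.2 ⟨_, _, fun r => ((c r).add (a.comp (h'.pt r))).add (PB.const 1), fun z => (d z).seq (b _)⟩

theorem XP.pair {F : ℚ × α → β} {G : ℚ × α → γ} (h : XP F) (h' : XP G) : XP fun z => (F z, G z) := by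
  obtain ⟨p, N, a, b⟩ := XP_iff.1 h
  obtain ⟨q, K, c, d⟩ := XP_iff.1 h'
  refine XP_iff.2 ⟨_, fun z => 45 * size z + 11 * N z + 11 * K z + 20, fun r => ?_, fun z => (b z).pair (d z)⟩
  exact ((((PB.const 45).mul (PB.size (f := fun a : α => (r, a)) (by fun_prop))).add ((PB.const 11).mul (a r))).add
    ((PB.const 11).mul (c r))).add (PB.const 20)

theorem XP.comp {F : ℚ × β → γ} {G : ℚ × α → β} {k : ℚ → ℚ} (h : XP F) (h' : XP G) (hk : PT k) :
    XP fun z => F (k z.1, G z) := by
  obtain ⟨p, N, a, b⟩ := XP_iff.1 h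
  obtain ⟨q, K, c, d⟩ := XP_iff.1 ((XP.of (F := fun z : ℚ × α => k z.1) (by fun_prop)).pair h')
  exact XP_iff.2 ⟨_, _, fun r => ((c r).add ((a (k r)).comp (h'.pt r))).add (PB.const 1), fun z => (d z).seq (b _)⟩
end

end Pool.Agent.H.MP_311ff9_lc
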