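import Pool.Agent.H.MP_311ff9_lc.B

set_option autoImplicit false

namespace Pool.Agent.H.MP_311ff9_lc

open Finset

variable {T : List T3}

theorem col_len (i) : (col T i).length = T.length := List.length_map _

theorem col_mem {t} (i) (h : t < T.length) : (col T i).getD t 0 ∈ col T i := by
  rw [List.getD_eq_getElem _ _ (col_len i ▸ h)]; exact List.getElem_mem _

theorem fst_lt {t} (i) (h : t < T.length) : fst T t i < T.length :=
  col_len (T := T) i ▸ List.idxOf_lt_length_iff.2 (col_mem i h)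

theorem fst_iff {t t'} (i) (h : t < T.length) : fst T t i = fst T t' i ↔ (col T i).getD t 0 = (col T i).getD t' 0 :=
  List.idxOf_inj (col_mem i h)

theorem occ_lt {t t'} (i) (h : t < T.length) (l : t < t') :
    occ T t i < ((col T i).take t').count ((col T i).getD t 0) := by
  have h' : t < (col T i).length := col_len i ▸ h
  refine lt_of_lt_of_le ?_ ((List.take_sublist_take_left l).count_le _)
  rw [List.take_succ_eq_append_getElem h', List.count_append, occ, List.getD_eq_getElem _ _ h']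
  simp

theorem occ_inj {t t'} {i} (h : t < T.length) (h' : t' < T.length) (e : fst T t i = fst T t' i) (e' : occ T t i = occ T t' i) :
    t = t' := by
  rw [fst_iff i h] at e
  rcases lt_trichotomy t t' with l | l | l
  · have := occ_lt i h l; rw [e', occ, e] at this; omega
  · exact l
  · have := occ_lt i h' l; rw [← e', occ, e] at this; omega

theorem occ3 (hT : DM3.inst T) {t i} (h : t < T.length) : occ T t i < 3 := by
  refine (occ_lt i h t.lt_succ_self).trans_le (((List.take_sublist _ _).count_le _).trans ?_)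
  unfold col el
  split_ifs
  exacts [(hT.2.2 _).1, (hT.2.2 _).2.1, (hT.2.2 _).2.2]

abbrev W (T : List T3) := V (Fin T.length)

def ix (u : W T) : ℕ := 18 * u.1 + 6 * u.2.1 + u.2.2

def ixE : W T ≃ Fin (18 * T.length) where
  toFun u := ⟨ix u, by unfold ix; omega⟩
  invFun a := (⟨a / 18, by omega⟩, ⟨a % 18 / 6, by omega⟩, ⟨a % 6, by omega⟩)
  left_inv u := by ext <;> simp only [ix] <;> omega
  right_inv a := by ext; simp only [ix]; omega

theorem ix_inj {u v : W T} : ix u = ix v ↔ u = v := ⟨fun e => ixE.injective (Fin.ext e), congrArg _⟩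

def fs (T : List T3) (t : Fin T.length) (i : Fin 3) : Fin T.length := ⟨fst T t i, fst_lt _ t.2⟩

theorem S_ix (x) (u : W T) : S T x (ix u) = src (occ T u.1 u.2.1) u.2.1 u.2.2 x := by
  unfold S ix; congr <;> omega

theorem N_ix (x) (u : W T) : N T x (ix u) = ix (if x < 9 then n1 u else if x < 18 then n2 u else n3 (fs T) u) := by
  have a : ix u / 18 = u.1 := by unfold ix; omega
  have b : ix u % 18 / 6 = u.2.1 := by unfold ix; omega
  have c : ix u % 6 = u.2.2 := by unfold ix; omega
  rw [N, a, b, c]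
  split_ifs <;> rfl

theorem cls_lt (x) (u : W T) : cls T x (ix u) < L T := by
  refine lt_trans ?_ (Nat.lt_size_self _)
  unfold cls
  split_ifs
  · rw [N_ix]; exact (ixE _).2
  · exact (ixE _).2

theorem cls_eq {x} {u v : W T} (n : u ≠ v) : (if cls T x (ix u) = cls T x (ix v) then 1 else 0 : ℕ) =
    (if S T x (ix u) ∧ ix v = N T x (ix u) then 1 else 0) + (if S T x (ix v) ∧ ix u = N T x (ix v) then 1 else 0) ∧
    (cls T x (ix u) = cls T x (ix v) → S T x (ix u) = !S T x (ix v)) := by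
  have a : S T x (ix u) → S T x (ix v) → N T x (ix u) ≠ N T x (ix v) := fun a b c => n (by
    rw [S_ix, src, decide_eq_true_eq] at a b
    rw [N_ix, N_ix, ix_inj] at c
    split_ifs at a b c <;> simp only [n1, n2, n3, fs, Prod.mk.injEq, Fin.ext_iff, Fin.val_add] at c
    · ext <;> omega
    · ext <;> omega
    · have := occ_inj u.1.2 v.1.2 (i := u.2.1) (c.1.trans (by rw [c.2.1])) (by rw [a.2, c.2.1, b.2])
      ext <;> omega)
  have b : ∀ u v : W T, S T x (ix u) → ix v = N T x (ix u) → ¬ S T x (ix v) := fun u v a b c => by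
    rw [S_ix, src, decide_eq_true_eq] at a c
    rw [N_ix, ix_inj] at b
    subst b
    split_ifs at a c <;> simp only [n1, n2, n3, Fin.val_add] at c <;> omega
  have b1 := b u v
  have b2 := b v u
  have c := ix_inj.not.2 n
  clear b
  unfold cls
  cases h : S T x (ix u) <;> cases h' : S T x (ix v) <;> grind

theorem cnt : ∀ (o i : Fin 3) (j : Fin 6) (a b c : Bool), ∑ x ∈ range 30,
    (if src o i j x ∧ (if x < 9 then a else if x < 18 then b else c) then 1 else 0) =
    (if j < 3 ∧ a then 3 else 0) + (if j = 2 ∧ b then 3 else 0) + if j < 2 ∧ c then 2 else 0 := by decide +kernel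

theorem D_eq (hT : DM3.inst T) (φ : ℕ → ℝ) (u v : W T) (n : u ≠ v) : φ (D T (ix u) (ix v)) =
    φ 30 + (om (fs T) (φ 33 - φ 30) (φ 32 - φ 30) u v + om (fs T) (φ 33 - φ 30) (φ 32 - φ 30) v u) := by
  have k : ∀ u v : W T, ∑ x ∈ range 30, (if S T x (ix u) ∧ ix v = N T x (ix u) then 1 else 0) =
      (if u.2.2 < 3 ∧ v = n1 u then 3 else 0) + (if u.2.2 = 2 ∧ v = n2 u then 3 else 0) +
        if u.2.2 < 2 ∧ v = n3 (fs T) u then 2 else 0 := fun u v => by
    have := cnt ⟨_, occ3 hT (i := u.2.1) u.1.2⟩ u.2.1 u.2.2 (v = n1 u) (v = n2 u) (v = n3 (fs T) u)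
    simp only [decide_eq_true_eq] at this
    rw [← this]
    refine sum_congr rfl fun x _ => if_congr ?_ rfl rfl
    rw [S_ix, N_ix, ix_inj]
    split_ifs <;> simp
  have e : (List.range 30).countP (fun x => cls T x (ix u) = cls T x (ix v)) =
      ∑ x ∈ range 30, if cls T x (ix u) = cls T x (ix v) then 1 else 0 := by
    rw [sum_boole, List.countP_eq_length_filter]; rfl
  rw [D, if_neg (ix_inj.not.2 n), e, sum_congr rfl fun x _ => (cls_eq n).1, sum_add_distrib, k, k, om, om]
  have f : ∀ u v : W T, (u.2.2 < 3 ∧ v = n1 u → u.2.2.1 < 3 ∧ v.2.2.1 = (u.2.2 + 1) % 3 ∧ v.2.1.1 = u.2.1) ∧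
      (u.2.2 = 2 ∧ v = n2 u → u.2.2.1 = 2 ∧ v.2.2.1 = 2 ∧ v.2.1.1 = (u.2.1 + 1) % 3) ∧
      (u.2.2 < 2 ∧ v = n3 (fs T) u → u.2.2.1 < 2 ∧ v.2.2.1 = 3) := fun u v =>
    ⟨fun ⟨a, b⟩ => b ▸ ⟨a, rfl, rfl⟩, fun ⟨a, b⟩ => b ▸ ⟨congrArg _ a, rfl, rfl⟩, fun ⟨a, b⟩ => b ▸ ⟨a, rfl⟩⟩
  obtain ⟨f1, f2, f3⟩ := f u v
  obtain ⟨f4, f5, f6⟩ := f v u
  clear f k e
  split_ifs <;> first | (norm_num; done) | grind

theorem dp_self (p : ENNReal) [Fact (1 ≤ p)] (s x) : dp p s x x = 0 := by
  rw [dp, norm_eq_zero]; ext; simp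

theorem dp_comm (p : ENNReal) [Fact (1 ≤ p)] (s x y) : dp p s x y = dp p s y x := by
  rw [dp, ← norm_neg]; congr; ext; simp

theorem dp_top (u v : W T) : dp ⊤ (18 * T.length) (pt true T (ix u)) (pt true T (ix v)) = D T (ix u) (ix v) := by
  have s : ∀ a b, D T a b = D T b a := fun a b => by simp only [D, eq_comm (a := a), eq_comm (a := cls T _ a)]
  have b : ∀ a b, a ≠ b → 30 ≤ D T a b ∧ D T a b ≤ 60 := fun a b n => by
    have := List.countP_le_length (p := fun x => cls T x a = cls T x b) (l := List.range 30)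
    rw [D, if_neg n]; simp at this ⊢; omega
  have z : ∀ a, D T a a = 0 := fun a => if_pos rfl
  have : Nonempty (Fin (18 * T.length)) := ⟨ixE u⟩
  rw [dp, PiLp.norm_eq_ciSup]
  simp only [pt, if_true, List.getD_eq_getElem?_getD, List.getElem?_map, List.getElem?_range (Fin.is_lt _), Option.map_some,
    Option.getD_some, Real.norm_eq_abs]
  push_cast
  refine le_antisymm (ciSup_le fun i => ?_) (le_ciSup_of_le (Finite.bddAbove_range _) (ixE v) ?_)
  · rw [abs_sub_le_iff, sub_le_iff_le_add, sub_le_iff_le_add]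
    norm_cast
    by_cases c : ix u = ix v
    · simp [c]
    by_cases c1 : ix u = i
    · simp [← c1, z, s (ix v)]
    by_cases c2 : ix v = i
    · simp [← c2, z]
    have := b _ _ c; have := b _ _ c1; have := b _ _ c2
    omega
  · simp [ixE, z]

theorem dp_fin {p : ENNReal} (hp : 0 < p.toReal) {u v : W T} (n : u ≠ v) :
    dp p (30 * L T) (pt false T (ix u)) (pt false T (ix v)) = (L T / 2 * D T (ix u) (ix v)) ^ (1 / p.toReal) := by
  rw [dp, PiLp.norm_eq_sum hp]
  congr 1
  simp only [pt, Bool.false_eq_true, if_false, List.getD_eq_getElem?_getD, List.getElem?_map, List.getElem?_range (Fin.is_lt _),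
    Option.map_some, Option.getD_some, Real.norm_eq_abs]
  have l0 : 0 < L T := Nat.two_pow_pos _
  rw [← finProdFinEquiv.sum_comp, Fintype.sum_prod_type]
  simp only [finProdFinEquiv_apply_val, Nat.add_mul_div_left _ _ l0, Nat.div_eq_of_lt (Fin.is_lt _), zero_add,
    Nat.add_mul_mod_self_left, Nat.mod_eq_of_lt (Fin.is_lt _)]
  have e : ∀ a b : ℕ, |(((if a % 2 = 0 then 0 else 1) - (if b % 2 = 0 then 0 else 1) : ℚ) : ℝ)| ^ p.toReal =
      (1 - (-1) ^ a * (-1) ^ b) / 2 := fun a b => by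
    rw [← Nat.mod_add_div a 2, ← Nat.mod_add_div b 2]
    rcases Nat.mod_two_eq_zero_or_one a with c | c <;> rcases Nat.mod_two_eq_zero_or_one b with d | d <;>
      simp [c, d, pow_add, pow_mul, hp.ne']
  have e2 : ∀ (k : ℕ) (f : ℕ → Bool), (-1 : ℝ) ^ (List.range k).countP f = ∏ i ∈ range k, if f i then -1 else 1 := fun k f => by
    induction k <;> simp [List.range_succ, prod_range_succ, pow_add, List.countP_cons, *]
  have e3 : ∀ x, ∑ r : Fin (L T), |((bit T (ix u) x r - bit T (ix v) x r : ℚ) : ℝ)| ^ p.toReal =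
      L T / 2 * (1 + if cls T x (ix u) = cls T x (ix v) then 1 else 0) := fun x => by
    simp only [bit, e, pow_add, e2, mul_mul_mul_comm _ ((-1 : ℝ) ^ (S T x (ix u)).toNat), ← prod_mul_distrib]
    rw [← sum_div, sum_sub_distrib, ← sum_mul, (Fin.sum_univ_eq_sum_range _ (L T)).trans (had _ _ _), L]
    split_ifs with c
    · rw [(cls_eq n).2 c, c]
      cases S T x (ix v) <;> simp <;> ring
    · obtain ⟨i, hi⟩ := not_forall.1 (mt Nat.eq_of_testBit_eq c)
      rw [prod_eq_zero (i := i) (mem_range.2 (lt_of_not_ge fun z => hi (by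
        rw [Nat.testBit_lt_two_pow ((cls_lt x u).trans_le (Nat.pow_le_pow_right two_pos z)),
          Nat.testBit_lt_two_pow ((cls_lt x v).trans_le (Nat.pow_le_pow_right two_pos z))]))) (if_neg hi)]
      simp
  simp only [e3, ← mul_sum]
  rw [D, if_neg (ix_inj.not.2 n), Fin.sum_univ_eq_sum_range (fun x => 1 + if cls T x (ix u) = cls T x (ix v) then 1 else 0),
    sum_add_distrib, sum_boole, List.countP_eq_length_filter]
  simp only [sum_const, card_range, nsmul_eq_mul, mul_one, Nat.cast_add]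
  rfl

end Pool.Agent.H.MP_311ff9_lc
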