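import Pool.Agent.H.MP_311ff9_lc.C

set_option autoImplicit false

namespace Pool.Agent.H.MP_311ff9_lc

open Finset

variable {T : List T3}

theorem tri_sum (F : ℕ → ℕ → ℝ) (h : ∀ i j, F i j = F j i) (h0 : ∀ i, F i i = 0) (n : ℕ) :
    2 * ∑ j ∈ range n, ∑ i ∈ range j, F i j = ∑ i ∈ range n, ∑ j ∈ range n, F i j := by
  induction n with
  | zero => simp
  | succ n ih => simp only [sum_range_succ, sum_add_distrib, mul_add, ih, h0, h n]; ring

theorem cnt_list (l : List ℕ) (a : ℕ) : ∑ i ∈ range l.length, (if l.getD i 0 = a then 1 else 0) = l.count a := by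
  induction l with
  | nil => simp
  | cons b l ih => rw [List.length_cons, sum_range_succ', List.count_cons, ← ih]; simp

theorem sum_ix {M : Type} [AddCommMonoid M] (f : ℕ → M) : ∑ u : W T, f (ix u) = ∑ i ∈ range (18 * T.length), f i :=
  (ixE.sum_comp fun i => f i).trans (Fin.sum_univ_eq_sum_range f _)

theorem sol_iff {p b} {l : List ℕ} : (MaxTri p).sol (red b T) l ↔
    l.length = 18 * T.length ∧ Tri fun u : W T => l.getD (ix u) 0 := by
  simp only [MaxTri, red, List.length_map, List.length_range, Tri, card_filter]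
  refine and_congr_right fun e => ?_
  simp only [fun a => sum_ix (T := T) fun i => if l.getD i 0 = a then 1 else 0, ← e, cnt_list]
  refine ⟨fun h u => h _ ?_, fun h a ha => ?_⟩
  · rw [List.getD_eq_getElem _ _ (e ▸ (ixE u).2)]; exact List.getElem_mem _
  · obtain ⟨i, hi, rfl⟩ := List.getElem_of_mem ha
    have := h (ixE.symm ⟨i, e ▸ hi⟩)
    rwa [show ix (ixE.symm ⟨i, e ▸ hi⟩) = i from congrArg Fin.val (ixE.apply_symm_apply _), List.getD_eq_getElem _ _ hi] at this

theorem val_eq (p : ENNReal) [Fact (1 ≤ p)] (b) (l : List ℕ) : 2 * (MaxTri p).val (red b T) l = ∑ u : W T, ∑ v : W T,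
    if l.getD (ix u) 0 = l.getD (ix v) 0 then dp p (red b T).1 (pt b T (ix u)) (pt b T (ix v)) else 0 := by
  simp only [MaxTri]
  rw [tri_sum _ (fun i j => by rw [dp_comm]; simp only [eq_comm]) (fun i => by simp [dp_self]),
    show (red b T).2.length = 18 * T.length by simp [red], ← sum_ix]
  refine sum_congr rfl fun u _ => ?_
  rw [← sum_ix]
  simp [red, show ∀ u : W T, ix u < 18 * T.length from fun u => (ixE u).2]

theorem col_get {t} (i) (h : t < T.length) : (col T i).getD t 0 = el (T.getD t (0, 0, 0)) i := by simp [col, h]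

theorem sol_of {f : ℕ → Bool} (h : ∀ t t' : Fin T.length, f t → f t' → ∀ i : Fin 3, fst T t i = fst T t' i → t = t') :
    DM3.sol T (((List.range T.length).filter f).map fun t => T.getD t (0, 0, 0)) := by
  refine ⟨fun x hx => ?_, List.pairwise_map.2 ((List.nodup_range.filter f).pairwise_of_forall_ne fun a ha b hb n => ?_)⟩
  · simp only [List.mem_map, List.mem_filter, List.mem_range] at hx
    obtain ⟨t, ⟨a, -⟩, rfl⟩ := hx
    simp [a]
  simp only [List.mem_filter, List.mem_range] at ha hb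
  have := fun i : Fin 3 => mt (h ⟨a, ha.1⟩ ⟨b, hb.1⟩ ha.2 hb.2 i) (by simpa)
  simp only [fst_iff _ ha.1, col_get _ ha.1, col_get _ hb.1] at this
  exact ⟨this 0, this 1, this 2⟩

theorem big_len (hT : DM3.inst T) : T.length ≤ 27 * (big T).length := by
  obtain ⟨c, h1, h2⟩ : ∃ c ∈ range 27, T.length ≤ 27 * (cand T c).length := by
    have := card_eq_sum_card_fiberwise (f := fun t => occ T t 0 + 3 * occ T t 1 + 9 * occ T t 2) (s := range T.length)
      (t := range 27) fun t ht => by
        have k := fun i => occ3 hT (i := i) (mem_range.1 ht)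
        have := k 0; have := k 1; have := k 2
        simp; omega
    refine exists_le_of_sum_le ⟨0, by simp⟩ ?_
    rw [← mul_sum, sum_const, card_range, smul_eq_mul]
    exact Nat.mul_le_mul_left _ ((card_range _).symm.trans this).le
  rw [big]
  cases e : (List.range 27).find? fun c => T.length ≤ 27 * (cand T c).length with
  | none => exact (List.find?_eq_none.1 e c (List.mem_range.2 (mem_range.1 h1)) (by simpa)).elim
  | some d => simpa using List.find?_some e

theorem dec_iff (l : List ℕ) (t : Fin T.length) : (∀ i ∈ List.range 3,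
    l.getD (18 * t + 6 * i) 0 = l.getD (18 * fst T t i + 6 * i + 3) 0 ∧
    l.getD (18 * t + 6 * i + 1) 0 = l.getD (18 * fst T t i + 6 * i + 3) 0) ↔ In (fs T) (fun u => l.getD (ix u) 0) t :=
  ⟨fun h i => h i (List.mem_range.2 i.2), fun h i hi => h ⟨i, List.mem_range.1 hi⟩⟩

open Classical in
theorem main (p : ENNReal) [hp : Fact (1 ≤ p)] : ∃ c : ℕ, 1 ≤ c ∧ ∀ ρ : ℝ, 1 < ρ → ∀ T, DM3.inst T →
    (MaxTri p).inst (red (p = ⊤) T) ∧ (∃ y, (MaxTri p).sol (red (p = ⊤) T) y) ∧ ∀ y, (MaxTri p).sol (red (p = ⊤) T) y →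
    DM3.sol T (back T y) ∧ ((MaxTri p).Within (red (p = ⊤) T) y ρ → DM3.Within T (back T y) (1 + c * (ρ - 1))) := by
  let θ : ℝ := if p = ⊤ then 1 else 1 / p.toReal
  have t1 : p ≠ ⊤ → 1 ≤ p.toReal := fun n => by simpa using ENNReal.toReal_mono n hp.out
  obtain ⟨h1, h2⟩ := pw (θ := θ) (by
      simp only [θ]; split_ifs with e
      exacts [one_pos, by have := t1 e; positivity]) (by
      simp only [θ]; split_ifs with e
      exacts [le_rfl, div_le_one_of_le₀ (t1 e) ENNReal.toReal_nonneg])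
  set a₀ : ℝ := 30 ^ θ
  set r₀ : ℝ := 33 ^ θ - a₀
  set q₀ : ℝ := 32 ^ θ - a₀
  have a0 : 0 < a₀ := by positivity
  obtain ⟨c, hc⟩ := exists_nat_ge (9 * (18 * a₀ + 6 * r₀ + 6 * q₀) / (2 * q₀ - r₀))
  rw [div_le_iff₀ (by linarith)] at hc
  refine ⟨c + 1, by omega, fun ρ hρ T hT => ?_⟩
  have m0 : 0 < T.length := List.length_pos_iff.2 hT.1
  have l0 : 0 < L T := Nat.two_pow_pos _
  obtain ⟨w, w0, hw⟩ : ∃ w : ℝ, 0 < w ∧ ∀ u v : W T, u ≠ v →
      dp p (red (p = ⊤) T).1 (pt (p = ⊤) T (ix u)) (pt (p = ⊤) T (ix v)) = w * D T (ix u) (ix v) ^ θ := by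
    by_cases e : p = ⊤
    · exact ⟨1, one_pos, fun u v _ => by subst e; simpa [red, θ] using dp_top u v⟩
    · refine ⟨(L T / 2) ^ θ, by positivity, fun u v n => ?_⟩
      rw [← Real.mul_rpow (by positivity) (by positivity)]
      simpa [red, θ, e] using dp_fin (one_pos.trans_le (t1 e)) n
  have hv : ∀ l, (MaxTri p).sol (red (p = ⊤) T) l → (MaxTri p).val (red (p = ⊤) T) l =
      18 * (w * a₀) * T.length + ∑ t, G (fs T) (w * r₀) (w * q₀) (fun u => l.getD (ix u) 0) t := fun l hl => by
    have := core_eq (fs T) (a := w * a₀) (r := w * r₀) (q := w * q₀)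
      (d := fun u v => dp p (red (p = ⊤) T).1 (pt (p = ⊤) T (ix u)) (pt (p = ⊤) T (ix v))) (fun u v => by
      split_ifs with e
      · rw [e, dp_self]
      · rw [hw u v e, D_eq hT (fun h => w * (h : ℝ) ^ θ) u v e]
        simp only [← mul_sub, Nat.cast_ofNat]; rfl) (sol_iff.1 hl).2
    rw [← val_eq, Fintype.card_fin] at this
    linarith
  have hs : ∀ M, DM3.sol T M → ∃ z, (MaxTri p).sol (red (p = ⊤) T) z ∧
      w * ((18 * a₀ + 9 * r₀) * T.length + 3 * (2 * q₀ - r₀) * M.length) ≤ (MaxTri p).val (red (p = ⊤) T) z := fun M hM => by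
    have nd : M.Nodup := hM.2.imp fun h e => h.1 (congrArg _ e)
    have inj := List.nodup_iff_injective_get.1 hT.2.1
    obtain ⟨l, b1, b2⟩ := core_ex (fs T) (r := w * r₀) (q := w * q₀) (by nlinarith) (by nlinarith)
      (univ.filter fun t => T.get t ∈ M) fun t a t' b i e => inj (by_contra fun n => by
        have := @List.Pairwise.forall _ _ _ ⟨fun _ _ h => ⟨h.1.symm, h.2.1.symm, h.2.2.symm⟩⟩ hM.2 _ (mem_filter.1 a).2 _
          (mem_filter.1 b).2 n
        rw [fs, fs, Fin.mk.injEq, fst_iff _ t.2, col_get _ t.2, col_get _ t'.2] at e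
        fin_cases i <;> simp_all [el])
    have e : (fun u => (List.ofFn fun i => l (ixE.symm i)).getD (ix u) 0) = l := funext fun u => by
      rw [List.getD_eq_getElem _ _ (List.length_ofFn.symm ▸ (ixE u).2), List.getElem_ofFn]
      exact congrArg l (ixE.symm_apply_apply u)
    have b3 : (MaxTri p).sol (red (p = ⊤) T) (List.ofFn fun i => l (ixE.symm i)) := sol_iff.2 ⟨by simp, e.symm ▸ b1⟩
    refine ⟨_, b3, ?_⟩
    have b4 := sum_le_sum fun t (_ : t ∈ univ) => b2 t
    have b5 : (univ.filter fun t => T.get t ∈ M).card = M.length := by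
      rw [← card_image_of_injective _ inj, ← List.toFinset_card_of_nodup nd]
      congr 1; ext x
      simp only [mem_image, mem_filter, mem_univ, true_and, List.mem_toFinset]
      exact ⟨fun ⟨_, a, b⟩ => b ▸ a, fun h => let ⟨n, e⟩ := List.mem_iff_get.1 (hM.1 h); ⟨n, e ▸ h, e⟩⟩
    rw [sum_add_distrib, sum_ite_mem, univ_inter, sum_const, sum_const, b5, card_univ, Fintype.card_fin] at b4
    rw [hv _ b3, e]
    simp only [nsmul_eq_mul] at b4
    linarith
  refine ⟨⟨?_, by simp [red, hT.1], by simp [red]; omega, ?_, ?_⟩, (hs [] ⟨by simp, .nil⟩).imp fun _ h => h.1,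
    fun y hy => ⟨?_, fun h M hM => ?_⟩⟩
  · simp only [red]; split_ifs <;> omega
  · refine List.nodup_range.map_on fun i hi j hj e => by_contra fun n => ?_
    obtain ⟨u, rfl⟩ : ∃ u : W T, ix u = i := ⟨_, congrArg Fin.val (ixE.apply_symm_apply ⟨i, List.mem_range.1 hi⟩)⟩
    obtain ⟨v, rfl⟩ : ∃ u : W T, ix u = j := ⟨_, congrArg Fin.val (ixE.apply_symm_apply ⟨j, List.mem_range.1 hj⟩)⟩
    have := hw u v (ix_inj.not.1 n)
    rw [e, dp_self, D, if_neg n] at this
    exact this.not_lt (by positivity)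
  · simp only [red, List.forall_mem_map, pt]
    split_ifs <;> simp
  · rw [back]
    split_ifs
    · exact sol_of fun t t' a b i e => core_match (fs T) (sol_iff.1 hy).2 ((dec_iff y t).1 (of_decide_eq_true a))
        ((dec_iff y t').1 (of_decide_eq_true b)) (Fin.ext e)
    · refine sol_of fun t t' a b i e => Fin.ext (occ_inj t.2 t'.2 e ?_)
      have k := fun i => occ3 hT (i := i) t.2
      have := k 0; have := k 1; have := k 2
      have k := fun i => occ3 hT (i := i) t'.2
      have := k 0; have := k 1; have := k 2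
      simp only [decide_eq_true_eq] at a b
      fin_cases i <;> simp <;> omega
  obtain ⟨z, z1, z2⟩ := hs M hM
  have b1 := h z z1
  have b2 := sum_le_sum fun t (_ : t ∈ univ) => core_le (fs T) (r := w * r₀) (q := w * q₀) (by nlinarith) (by nlinarith)
    (sol_iff.1 hy).2 t
  have b3 : (univ.filter (In (fs T) fun u => y.getD (ix u) 0)).card = (dec T y).length := by
    rw [dec, ← List.countP_eq_length_filter, card_filter]
    simp only [← dec_iff]
    refine (Fin.sum_univ_eq_sum_range (fun t => if ∀ i ∈ List.range 3, y.getD (18 * t + 6 * i) 0 =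
      y.getD (18 * fst T t i + 6 * i + 3) 0 ∧ y.getD (18 * t + 6 * i + 1) 0 = y.getD (18 * fst T t i + 6 * i + 3) 0
      then 1 else 0) _).trans ?_
    rw [sum_boole, List.countP_eq_length_filter]
    rfl
  rw [sum_add_distrib, ← sum_filter, sum_const, sum_const, b3, card_univ, Fintype.card_fin] at b2
  have b4 : ((dec T y).length : ℝ) ≤ T.length := by exact_mod_cast (List.length_filter_le _ _).trans_eq List.length_range
  have b5 : (dec T y).length ≤ (back T y).length ∧ T.length ≤ 27 * (back T y).length := by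
    have := big_len hT
    rw [back, List.length_map]; split_ifs <;> omega
  have b6 : ((dec T y).length : ℝ) ≤ (back T y).length := by exact_mod_cast b5.1
  have b7 : (T.length : ℝ) ≤ 27 * (back T y).length := by exact_mod_cast b5.2
  have b8 : (MaxTri p).val (red (p = ⊤) T) y ≤ w * ((18 * a₀ + 9 * r₀) * T.length + 3 * (2 * q₀ - r₀) * (dec T y).length) := by
    rw [hv y hy]; simp only [nsmul_eq_mul] at b2; linarith
  have b9 := le_of_mul_le_mul_left (z2.trans ((show _ ≤ ρ * _ from b1).trans ((mul_le_mul_of_nonneg_left b8 (by linarith)).trans_eq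
    (mul_left_comm ..)))) w0
  change (M.length : ℝ) ≤ _ * (back T y).length
  push_cast
  refine le_of_mul_le_mul_left ?_ (show 0 < 3 * (2 * q₀ - r₀) by linarith)
  generalize (M.length : ℝ) = A, ((dec T y).length : ℝ) = B, (T.length : ℝ) = m at *
  have p0 : (0 : ℝ) ≤ (back T y).length := by positivity
  generalize ((back T y).length : ℝ) = C at *
  have c1 : (18 * a₀ + 9 * r₀) * m + 3 * (2 * q₀ - r₀) * B ≤ 3 * (2 * q₀ - r₀) * (c + 1) * C := by
    nlinarith [mul_le_mul_of_nonneg_left b7 (show 0 ≤ 18 * a₀ + 6 * r₀ + 6 * q₀ by linarith), mul_le_mul_of_nonneg_right hc p0,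
      mul_le_mul_of_nonneg_left b4 (show 0 ≤ 2 * q₀ - r₀ by linarith), mul_nonneg p0 (show 0 ≤ 2 * q₀ - r₀ by linarith)]
  nlinarith [mul_le_mul_of_nonneg_left c1 (show 0 ≤ ρ - 1 by linarith),
    mul_le_mul_of_nonneg_left b6 (show 0 ≤ 2 * q₀ - r₀ by linarith)]

end Pool.Agent.H.MP_311ff9_lc
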